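import Pool.Agent.Q61.MP105f

set_option autoImplicit false

open MeasureTheory Topology Filter Set
open scoped ContDiff

namespace Pool.Agent.Results.MP_105042_an.NoVanishingMorreyRegularity

/-- Euclidean norm of a vector of `ℝᵏ` -/
noncomputable def vnorm {k : ℕ} (y : Fin k → ℝ) : ℝ := Real.sqrt (∑ j, y j ^ 2)

/-- Euclidean norm of a matrix of `ℝⁿˣᵏ` -/
noncomputable def mnorm {n k : ℕ} (z : Fin n → Fin k → ℝ) : ℝ := Real.sqrt (∑ i, ∑ j, z i j ^ 2)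

/-- `|Q(x,y,z)| ≤ C |z|²` -/
def QuadraticGrowth {n k : ℕ}
    (Q : EuclideanSpace ℝ (Fin n) → (Fin k → ℝ) → (Fin n → Fin k → ℝ) → (Fin k → ℝ)) : Prop :=
  ∃ C : ℝ, 0 < C ∧ ∀ x y z, vnorm (Q x y z) ≤ C * mnorm z ^ 2

/-- scalar test functions: `φ ∈ C_c^∞(B₁)` -/
def IsTest {n : ℕ} (φ : EuclideanSpace ℝ (Fin n) → ℝ) : Prop :=
  ContDiff ℝ ∞ φ ∧ HasCompactSupport φ ∧ tsupport φ ⊆ Metric.ball 0 1

/-- `u ∈ W^{1,p}(B₁, ℝᵏ)` and `G = ∇u` is its weak gradient on `B₁`: `G x i j` is the weak derivative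
of the component `u_j` in the direction of the `i`-th coordinate. -/
def IsW1p {n k : ℕ} (p : ℝ) (u : EuclideanSpace ℝ (Fin n) → Fin k → ℝ)
    (G : EuclideanSpace ℝ (Fin n) → Fin n → Fin k → ℝ) : Prop :=
  (∀ j, MemLp (fun x => u x j) (ENNReal.ofReal p) (volume.restrict (Metric.ball 0 1))) ∧
  (∀ i j, MemLp (fun x => G x i j) (ENNReal.ofReal p) (volume.restrict (Metric.ball 0 1))) ∧
  ∀ i j φ, IsTest φ →
    ∫ x in Metric.ball 0 1, u x j * fderiv ℝ φ x (EuclideanSpace.single i 1) =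
      -∫ x in Metric.ball 0 1, G x i j * φ x

/-- `u`, with weak gradient `G`, is a weak solution in `W^{1,2}(B₁,ℝᵏ)` of `Δu = Q(x,u,∇u)`. -/
def IsWeakSolution {n k : ℕ}
    (Q : EuclideanSpace ℝ (Fin n) → (Fin k → ℝ) → (Fin n → Fin k → ℝ) → (Fin k → ℝ))
    (u : EuclideanSpace ℝ (Fin n) → Fin k → ℝ)
    (G : EuclideanSpace ℝ (Fin n) → Fin n → Fin k → ℝ) : Prop :=
  IsW1p 2 u G ∧ ∀ φ : Fin k → EuclideanSpace ℝ (Fin n) → ℝ, (∀ j, IsTest (φ j)) →
    -∫ x in Metric.ball 0 1, ∑ i, ∑ j, G x i j * fderiv ℝ (φ j) x (EuclideanSpace.single i 1) =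
      ∫ x in Metric.ball 0 1, ∑ j, Q x (u x) (G x) j * φ j x

/-- the Morrey quantity `r^{-(n-p)} ∫_{B_r(x₀)} |∇u|^p` -/
noncomputable def morrey {n k : ℕ} (p : ℝ) (G : EuclideanSpace ℝ (Fin n) → Fin n → Fin k → ℝ)
    (x₀ : EuclideanSpace ℝ (Fin n)) (r : ℝ) : ℝ :=
  (r ^ ((n : ℝ) - p))⁻¹ * ∫ x in Metric.ball x₀ r, mnorm (G x) ^ p

/-- the Morrey quantity tends to `0` as `r ↓ 0` at each point of `B₁` -/
def VanishingMorrey {n k : ℕ} (p : ℝ) (G : EuclideanSpace ℝ (Fin n) → Fin n → Fin k → ℝ) : Prop :=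
  ∀ x₀ ∈ Metric.ball (0 : EuclideanSpace ℝ (Fin n)) 1, Tendsto (morrey p G x₀) (𝓝[>] 0) (𝓝 0)

/-- `u` agrees a.e. on `B_{1/2}` with a Hölder continuous map -/
def HolderOnHalfBall {n k : ℕ} (u : EuclideanSpace ℝ (Fin n) → Fin k → ℝ) : Prop :=
  ∃ v : EuclideanSpace ℝ (Fin n) → Fin k → ℝ,
    (∃ α : ℝ, 0 < α ∧ α < 1 ∧ ∃ C : ℝ, ∀ x ∈ Metric.ball (0 : EuclideanSpace ℝ (Fin n)) (1 / 2),
      ∀ y ∈ Metric.ball (0 : EuclideanSpace ℝ (Fin n)) (1 / 2), vnorm (v x - v y) ≤ C * ‖x - y‖ ^ α) ∧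
    ∀ᵐ x ∂volume.restrict (Metric.ball (0 : EuclideanSpace ℝ (Fin n)) (1 / 2)), u x = v x

/-- Question Q1 -/
def Q1 : Prop :=
  ∀ (n k : ℕ), 3 ≤ n → 1 ≤ k → ∀ p : ℝ, 2 < p → p ≤ n →
    ∀ (Q : EuclideanSpace ℝ (Fin n) → (Fin k → ℝ) → (Fin n → Fin k → ℝ) → (Fin k → ℝ))
      (u : EuclideanSpace ℝ (Fin n) → Fin k → ℝ) (G : EuclideanSpace ℝ (Fin n) → Fin n → Fin k → ℝ),
      QuadraticGrowth Q → IsWeakSolution Q u G → IsW1p p u G → VanishingMorrey p G → HolderOnHalfBall u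

/-- The answer to Q1 is negative.  In fact for `n = 5`, `k = 3` there are a `Q` with quadratic growth, which is
even `C^∞` at all points with `x ≠ 0`, and ONE weak solution `u`, `C^∞` away from the origin, which lies in
`W^{1,p}(B₁)` and has vanishing Morrey quantity `M_p` at every point of `B₁` for every `p ∈ (2,4)`, yet
`u` agrees a.e. on `B_{1/2}` with no continuous map. -/
theorem result :
    (∃ (Q : EuclideanSpace ℝ (Fin 5) → (Fin 3 → ℝ) → (Fin 5 → Fin 3 → ℝ) → (Fin 3 → ℝ))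
      (u : EuclideanSpace ℝ (Fin 5) → Fin 3 → ℝ) (G : EuclideanSpace ℝ (Fin 5) → Fin 5 → Fin 3 → ℝ),
      QuadraticGrowth Q ∧
      ContDiffOn ℝ ∞ (fun w : EuclideanSpace ℝ (Fin 5) × (Fin 3 → ℝ) × (Fin 5 → Fin 3 → ℝ) =>
        Q w.1 w.2.1 w.2.2) {w | w.1 ≠ 0} ∧
      (∀ x ≠ 0, ContDiffAt ℝ ∞ u x) ∧
      IsWeakSolution Q u G ∧
      (∀ p : ℝ, 2 < p → p < 4 → IsW1p p u G ∧ VanishingMorrey p G) ∧
      ¬ ∃ v : EuclideanSpace ℝ (Fin 5) → Fin 3 → ℝ, ContinuousOn v (Metric.ball 0 (1 / 2)) ∧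
        ∀ᵐ x ∂volume.restrict (Metric.ball (0 : EuclideanSpace ℝ (Fin 5)) (1 / 2)), u x = v x) ∧
    ¬ Q1 := by
  have hW : ∀ p : ℝ, 2 < p → p < 4 → IsW1p p Q61.M105.U Q61.M105.G := by
    intro p h2 h4
    refine ⟨fun j => ?_, fun i j => Q61.M105.memLp_G i j h2 h4, ?_⟩
    · have : (fun x => Q61.M105.U x j) = Q61.M105.comp j := by funext x; exact Q61.M105.U_eq x j
      rw [this]; exact Q61.M105.memLp_comp j _
    · intro i j φ hφ
      simp only [Q61.M105.U_eq]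
      exact Q61.M105.weak_grad i j hφ.1 hφ.2.1 hφ.2.2
  have hsol : IsWeakSolution Q61.M105.Q Q61.M105.U Q61.M105.G := by
    refine ⟨⟨fun j => ?_, fun i j => ?_, (hW 3 (by norm_num) (by norm_num)).2.2⟩, ?_⟩
    · have : (fun x => Q61.M105.U x j) = Q61.M105.comp j := by funext x; exact Q61.M105.U_eq x j
      rw [this]; exact Q61.M105.memLp_comp j _
    · exact (Q61.M105.memLp_G i j (p := 3) (by norm_num) (by norm_num)).mono_exponent
        (ENNReal.ofReal_le_ofReal (by norm_num))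
    · intro φ hφ
      exact Q61.M105.weak_sol hφ
  have hgrow : QuadraticGrowth Q61.M105.Q := by
    refine ⟨1100, by norm_num, fun x y z => ?_⟩
    have h := Q61.M105.Q_growth x y z
    have h2 : mnorm z ^ 2 = Q61.M105.msq z := Real.sq_sqrt (Q61.M105.msq_nonneg z)
    rw [h2]; exact h
  have hmor : ∀ p : ℝ, 2 < p → p < 4 → VanishingMorrey p Q61.M105.G := by
    intro p h2 h4 x₀ _
    have e : morrey p Q61.M105.G x₀ = fun r : ℝ => (r ^ (5 - 2 * (p / 2)))⁻¹ *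
        ∫ x in Metric.ball x₀ r, Q61.M105.msq (Q61.M105.G x) ^ (p / 2) := by
      funext r
      unfold morrey
      congr 2
      · push_cast; ring_nf
      · funext x
        unfold mnorm
        rw [Real.sqrt_eq_rpow]
        show (Q61.M105.msq (Q61.M105.G x) ^ ((1:ℝ) / 2)) ^ p = _
        rw [← Real.rpow_mul (Q61.M105.msq_nonneg _)]
        congr 1; ring
    rw [e]
    by_cases hx : x₀ = 0
    · rw [hx]; exact Q61.M105.mor0 (by linarith) (by linarith)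
    · exact Q61.M105.mor1 (by linarith) hx
  have hnc : ¬ ∃ v : EuclideanSpace ℝ (Fin 5) → Fin 3 → ℝ, ContinuousOn v (Metric.ball 0 (1 / 2)) ∧
      ∀ᵐ x ∂volume.restrict (Metric.ball (0 : EuclideanSpace ℝ (Fin 5)) (1 / 2)), Q61.M105.U x = v x := by
    rintro ⟨v, hv, hae⟩
    apply Q61.M105.not_cont
    refine ⟨fun x => v x 0, fun x hx => (continuous_apply 0).continuousAt.comp_continuousWithinAt (hv x hx), ?_⟩
    filter_upwards [hae] with x hx
    rw [← hx]; rfl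
  refine ⟨⟨Q61.M105.Q, Q61.M105.U, Q61.M105.G, hgrow, Q61.M105.Q_smooth, ?_, hsol,
    fun p h2 h4 => ⟨hW p h2 h4, hmor p h2 h4⟩, hnc⟩, ?_⟩
  · intro x hx
    rw [contDiffAt_pi]
    intro j
    have : (fun x => Q61.M105.U x j) = Q61.M105.comp j := by funext x; exact Q61.M105.U_eq x j
    rw [this]
    exact Q61.M105.comp_smooth j hx
  · intro hQ
    obtain ⟨v, ⟨α, hα, hα1, C, hC⟩, hae⟩ := hQ 5 3 (by norm_num) (by norm_num) 3 (by norm_num) (by norm_num)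
      Q61.M105.Q Q61.M105.U Q61.M105.G hgrow hsol (hW 3 (by norm_num) (by norm_num))
      (hmor 3 (by norm_num) (by norm_num))
    apply hnc
    refine ⟨v, ?_, hae⟩
    rw [continuousOn_pi]
    intro j x hx
    have hle : ∀ y ∈ Metric.ball (0 : EuclideanSpace ℝ (Fin 5)) (1 / 2), |v y j - v x j| ≤ C * ‖y - x‖ ^ α := by
      intro y hy
      refine le_trans ?_ (hC y hy x hx)
      unfold vnorm
      rw [← Real.sqrt_sq_eq_abs]
      apply Real.sqrt_le_sqrt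
      exact Finset.single_le_sum (f := fun j => (v y - v x) j ^ 2) (fun _ _ => sq_nonneg _) (Finset.mem_univ j)
    have hlim : Tendsto (fun y : EuclideanSpace ℝ (Fin 5) => C * ‖y - x‖ ^ α)
        (𝓝[Metric.ball 0 (1 / 2)] x) (𝓝 0) := by
      have h1 : ContinuousAt (fun y : EuclideanSpace ℝ (Fin 5) => C * ‖y - x‖ ^ α) x := by
        apply ContinuousAt.mul continuousAt_const
        exact (continuous_id.sub continuous_const).norm.continuousAt.rpow_const (Or.inr hα.le)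
      have h2 := h1.tendsto
      simp only [sub_self, norm_zero, Real.zero_rpow hα.ne', mul_zero] at h2
      exact h2.mono_left nhdsWithin_le_nhds
    have h3 : Tendsto (fun y : EuclideanSpace ℝ (Fin 5) => v y j - v x j) (𝓝[Metric.ball 0 (1 / 2)] x) (𝓝 0) := by
      apply squeeze_zero_norm' _ hlim
      filter_upwards [self_mem_nhdsWithin] with y hy
      exact hle y hy
    have h4 := h3.add_const (v x j)
    simp only [sub_add_cancel, zero_add] at h4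
    exact h4

end Pool.Agent.Results.MP_105042_an.NoVanishingMorreyRegularity
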